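import Mathlib
import Pool.Agent.H12.Exp4

/-! The expected-maximum inequality for `n = 4`. -/

namespace Pool.Agent.Results.MP_2ee812_an.Four
open Finset

/-- `S_n(a) = ∑_{∅ ≠ J} (-1)^{|J|+1} (∑_{j ∈ J} a_j)⁻¹`. -/
noncomputable def S (n : ℕ) (a : Fin n → ℝ) : ℝ :=
  ∑ J ∈ (univ : Finset (Finset (Fin n))).filter (fun J => J.Nonempty),
    (-1) ^ (J.card + 1) * (∑ j ∈ J, a j)⁻¹

theorem result (a : Fin 4 → ℝ) (ha : ∀ i, 0 < a i) : √(∑ i, (a i ^ 2)⁻¹) ≤ S 4 a := by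
  have e : (univ : Finset (Finset (Fin 4))).filter (fun J => J.Nonempty) =
      {{0}, {1}, {2}, {3}, {0, 1}, {0, 2}, {0, 3}, {1, 2}, {1, 3}, {2, 3},
        {0, 1, 2}, {0, 1, 3}, {0, 2, 3}, {1, 2, 3}, {0, 1, 2, 3}} := by decide
  have h := Pool.Agent.H12.Exp4.main (a 0) (a 1) (a 2) (a 3) (ha 0) (ha 1) (ha 2) (ha 3)
  rw [S, e, Fin.sum_univ_four]
  refine h.trans_eq ?_
  simp (disch := decide) only [sum_insert, sum_singleton, card_insert_of_notMem, card_singleton,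
    ← add_assoc]
  ring

end Pool.Agent.Results.MP_2ee812_an.Four
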